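import Pool.Agent.Helper22.G4.Sys

/-! # G4-N3: index bounds and the form of the system -/

namespace Pool.Agent.Helper62.G4

open Pool.Agent.Helper22.G4

theorem le_bnd {L : List Q4} {q : Q4} (hq : q ∈ L) : q.1 + q.2.1 + q.2.2.1 + q.2.2.2 + 2 ≤ bnd L := by
  unfold bnd
  have : q.1 + q.2.1 + q.2.2.1 + q.2.2.2 ≤ (L.map fun q => q.1 + q.2.1 + q.2.2.1 + q.2.2.2).sum :=
    List.le_sum_of_mem (List.mem_map.2 ⟨q, hq, rfl⟩)
  omega

theorem mem_zip {α : Type} {L : List α} {q : α × ℕ} (h : q ∈ L.zipIdx) : q.1 ∈ L ∧ q.2 < L.length := by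
  rw [List.mem_zipIdx_iff_getElem?] at h
  obtain ⟨h1, h2⟩ := List.getElem?_eq_some_iff.1 h
  exact ⟨h2 ▸ List.getElem_mem h1, h1⟩

/-- G4-N3 (the indices of `posOf L` are below `nvar L`; the system is of the required form). -/
theorem posOf_lt {L : List Q4} : ∀ q ∈ posOf L, q.2.1 < nvar L ∧ q.2.2.1 < nvar L ∧
    q.2.2.2 < nvar L := by
  intro q hq
  have hb : 2 ≤ bnd L := by unfold bnd; omega
  unfold posOf at hq
  rw [List.mem_cons] at hq
  unfold nvar
  rcases hq with rfl | hq
  · simp only [bv, av]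
    norm_num
    omega
  · rw [List.mem_flatMap] at hq
    obtain ⟨⟨r, t⟩, hr, hq⟩ := hq
    obtain ⟨h1, h2⟩ := mem_zip hr
    simp only at h1 h2 hq
    have h3 := le_bnd h1
    have hav : ∀ i, av i = 2 * i := fun i => rfl
    have hbv : ∀ i, bv i ≤ 2 * i + 1 := by
      intro i; unfold bv; split_ifs <;> omega
    have b1 := hbv r.1
    have b2 := hbv r.2.1
    have b3 := hbv r.2.2.1
    have b4 := hbv r.2.2.2
    simp only [posQ, List.mem_cons, List.not_mem_nil, or_false, hav] at hq
    rcases hq with rfl | rfl | rfl | rfl | rfl | rfl | rfl | rfl | rfl | rfl <;> simp only <;> omega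

theorem nfOf_ok {n : ℕ} {C : List PC} (hn : 1 ≤ n)
    (hC : ∀ q ∈ C, q.2.1 < n ∧ q.2.2.1 < n ∧ q.2.2.2 < n) : (nfOf n C).OK := by
  have hB : (nfOf n C).B = 8 * (n + C.length) := rfl
  have hK : (nfOf n C).K = 8 * (n + C.length) + 3 + (4 * n + 2) := rfl
  have hops : (nfOf n C).ops = (List.range n).flatMap (modConv (8 * (n + C.length)) n) ++
      C.zipIdx.flatMap fun q => modCon (8 * (n + C.length)) n (8 * (n + q.2)) q.1 := rfl
  constructor
  · rw [hops]
    intro h
    rw [List.append_eq_nil_iff, List.flatMap_eq_nil_iff] at h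
    have := h.1 0 (List.mem_range.2 (by omega))
    simp [modConv] at this
  · rw [hB, hK, hops]
    intro o ho
    rw [List.mem_append, List.mem_flatMap, List.mem_flatMap] at ho
    rcases ho with ⟨i, hi, ho⟩ | ⟨⟨q, t⟩, hq, ho⟩
    · rw [List.mem_range] at hi
      simp only [modConv, List.mem_cons, List.not_mem_nil, or_false, lA, lS, lC, lM] at ho
      rcases ho with rfl | rfl | rfl | rfl | rfl <;> simp <;> omega
    · obtain ⟨h1, h2⟩ := mem_zip hq
      simp only at h1 h2 ho
      obtain ⟨c1, c2, c3⟩ := hC q h1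
      simp only [modCon, lA, lS, lC, lM, lD, lE] at ho
      split_ifs at ho
      · simp only [List.mem_cons, List.not_mem_nil, or_false] at ho
        rcases ho with rfl | rfl | rfl | rfl | rfl | rfl | rfl | rfl <;> simp <;> omega
      · simp only [List.mem_cons, List.not_mem_nil, or_false] at ho
        rcases ho with rfl | rfl | rfl | rfl | rfl | rfl | rfl | rfl <;> simp <;> omega
      · simp only [List.mem_cons, List.not_mem_nil, or_false] at ho
        rcases ho with rfl | rfl | rfl | rfl | rfl | rfl | rfl <;> simp <;> omega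

end Pool.Agent.Helper62.G4
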