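import Pool.Agent.Helper22.G4.Real
import Pool.Agent.Helper58.G4.C0

/-! # G4-R11: validity of the book inequalities on the pages -/

namespace Pool.Agent.Helper62.G4

open Submodule
open Pool.Agent.Helper22.G4 Pool.Agent.Helper58.G4

/-- the value of `fF` at a page vertex -/
theorem fF_u {I : NF} (G : Geo I) (h m : ℝ) {a : ℕ} (ha : 1 ≤ a) (s b i j : ℕ) :
    G.fF s a (G.c h m (Vx.u b i j)) = (G.H b i - G.al s * G.X b i) -
      (G.T 0 s * (((b : ℝ) - a) * (b - a - 1) / (a * (a + 1))) + G.T a s * (b * (a + 1 - b) / a) +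
        G.T (a + 1) s * (b * (b - a) / (a + 1))) := by
  have ha0 : (a : ℝ) ≠ 0 := by positivity
  have ha1 : (a : ℝ) + 1 ≠ 0 := by positivity
  simp only [Geo.fF, Geo.c, Vx.u, b0, bX, if_true, LinearMap.sub_apply, LinearMap.smul_apply, lin_vec,
    smul_eq_mul]
  have e1 : (a : ℝ) + 1 - a = 1 := by ring
  have e2 : (a : ℝ) - (a + 1) = -1 := by ring
  rw [e1, e2]
  field_simp
  ring

theorem fF_b1 {I : NF} (G : Geo I) (h m : ℝ) (s a : ℕ) :
    G.fF s a (G.c h m Vx.b1) = G.al I.N - G.al s := by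
  simp [Geo.fF, Geo.c, Vx.b1, b0, bX, lin_vec]
  ring

theorem fF_b2 {I : NF} (G : Geo I) (h m : ℝ) (s a : ℕ) :
    G.fF s a (G.c h m Vx.b2) = G.al s - G.al 0 := by
  simp [Geo.fF, Geo.c, Vx.b2, b0, bX, lin_vec]
  ring

theorem al_le {I : NF} (G : Geo I) {i j : ℕ} (h : i ≤ j) (hj : j ≤ I.N) : G.al i ≤ G.al j := by
  rcases h.eq_or_lt with rfl | h
  · exact le_rfl
  · exact (G.mono i j h hj).le

/-- G4-R11 (validity of the book inequalities on the pages). -/
theorem valid_F_page {I : NF} (hI : I.OK) (G : Geo I) (hF : G.Fan) (h m : ℝ) {a s : ℕ}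
    (ha : 1 ≤ a) (ha' : a + 1 ≤ I.M) (hs : s ≤ I.N) {v : Vx} (hv : v ∈ I.data.verts)
    (hv' : v.1 ≤ 2) :
    0 ≤ G.fF s a (G.c h m v) ∧ (G.fF s a (G.c h m v) = 0 ↔ Fc.mem (Fc.F I.N s a) v) := by
  have ha0 : (a : ℝ) ≠ 0 := by positivity
  have ha1 : (a : ℝ) + 1 ≠ 0 := by positivity
  rcases NF.verts_cases hv with rfl | rfl | ⟨b, i, j, hb, rfl⟩ | ⟨g, hg, rfl⟩ | ⟨g, hg, rfl⟩
  · rw [fF_b1, Fc.mem_b1]
    constructor
    · have := al_le G hs le_rfl; linarith
    · simp only [Fc.F, decide_eq_true_eq]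
      constructor
      · intro h0
        by_contra hne
        have := G.mono s I.N (lt_of_le_of_ne hs hne) le_rfl
        linarith
      · intro h0; rw [h0]; ring
  · rw [fF_b2, Fc.mem_b2]
    constructor
    · have := al_le G (Nat.zero_le s) hs; linarith
    · simp only [Fc.F, decide_eq_true_eq]
      constructor
      · intro h0
        by_contra hne
        have := G.mono 0 s (Nat.pos_of_ne_zero hne) hs
        linarith
      · intro h0; rw [h0]; ring
  · have hM := (NF.pu_lt hI hb).2.2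
    obtain ⟨t1, t2⟩ := G.tan b i j hb s hs
    rw [fF_u G h m ha, Fc.mem_u]
    simp only [Fc.F]
    by_cases h0 : b = 0
    · subst h0
      have e : G.T 0 s * ((((0:ℕ) : ℝ) - a) * (((0:ℕ):ℝ) - a - 1) / (a * (a + 1)))
          + G.T a s * (((0:ℕ):ℝ) * (a + 1 - ((0:ℕ):ℝ)) / a) +
          G.T (a + 1) s * (((0:ℕ):ℝ) * (((0:ℕ):ℝ) - a) / (a + 1)) = G.T 0 s := by
        push_cast; field_simp; ring
      rw [e]
      refine ⟨by linarith, ?_⟩
      rw [sub_eq_zero, eq_comm, t2]
      simp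
    · by_cases h1 : b = a
      · subst h1
        have e : G.T 0 s * (((b : ℝ) - b) * (b - b - 1) / (b * (b + 1))) + G.T b s * (b * (b + 1 - b) / b) +
            G.T (b + 1) s * (b * (b - b) / (b + 1)) = G.T b s := by
          field_simp; ring
        rw [e]
        refine ⟨by linarith, ?_⟩
        rw [sub_eq_zero, eq_comm, t2]
        simp
      · by_cases h2 : b = a + 1
        · subst h2
          have e : G.T 0 s * ((((a + 1 : ℕ) : ℝ) - a) * (((a + 1 : ℕ) : ℝ) - a - 1) / (a * (a + 1)))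
              + G.T a s * (((a + 1 : ℕ) : ℝ) * (a + 1 - ((a + 1 : ℕ) : ℝ)) / a) +
              G.T (a + 1) s * (((a + 1 : ℕ) : ℝ) * (((a + 1 : ℕ) : ℝ) - a) / (a + 1)) = G.T (a + 1) s := by
            push_cast; field_simp; ring
          rw [e]
          refine ⟨by linarith, ?_⟩
          rw [sub_eq_zero, eq_comm, t2]
          simp
        · have := hF a b s ha ha' hM h0 h1 h2 hs
          refine ⟨by linarith, ⟨fun h3 => ?_, fun h3 => ?_⟩⟩
          · linarith
          · rcases h3.1 with h | h | h <;> contradiction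
  · simp [Vx.p] at hv'
  · simp [Vx.q] at hv'

theorem valid_Q_page {I : NF} (hI : I.OK) (G : Geo I) (h m : ℝ) {a b : ℕ}
    (hab : (a + 1 ≤ I.M ∧ b = a + 1) ∨ (a = I.M ∧ b = 0)) {v : Vx} (hv : v ∈ I.data.verts)
    (hv' : v.1 ≤ 2) :
    0 ≤ fQ a b (G.c h m v) ∧ (fQ a b (G.c h m v) = 0 ↔ Fc.mem (Fc.Q I.N a b) v) := by
  rcases NF.verts_cases hv with rfl | rfl | ⟨k, i, j, hk, rfl⟩ | ⟨g, hg, rfl⟩ | ⟨g, hg, rfl⟩
  · have e : fQ a b (G.c h m Vx.b1) = 0 := by
      unfold fQ; split_ifs <;> simp [Geo.c, Vx.b1, lin_vec]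
    rw [e, Fc.mem_b1]
    simp [Fc.Q]
  · have e : fQ a b (G.c h m Vx.b2) = 0 := by
      unfold fQ; split_ifs <;> simp [Geo.c, Vx.b2, lin_vec]
    rw [e, Fc.mem_b2]
    simp [Fc.Q]
  · obtain ⟨l1, l2, l3⟩ := NF.pu_lt hI hk
    rw [Fc.mem_u]
    have hi : i ≤ I.N := l1.le.trans l2
    have hmem : ((k = (Fc.Q I.N a b).1.1 ∨ k = (Fc.Q I.N a b).1.2.1 ∨ k = (Fc.Q I.N a b).1.2.2) ∧
        i ≤ (Fc.Q I.N a b).2.1.2 ∧ (Fc.Q I.N a b).2.1.1 ≤ j) ↔ (k = a ∨ k = b) := by
      simp only [Fc.Q]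
      constructor
      · rintro ⟨h | h | h, -⟩ <;> simp [h]
      · intro h
        refine ⟨?_, hi, Nat.zero_le _⟩
        rcases h with h | h <;> simp [h]
    rw [hmem]
    rcases hab with ⟨hM, rfl⟩ | ⟨rfl, rfl⟩
    · have e : fQ a (a + 1) (G.c h m (Vx.u k i j)) = ((k : ℝ) - a) * (k - (a + 1)) := by
        simp [fQ, Geo.c, Vx.u, lin_vec]
        ring
      rw [e]
      constructor
      · rcases le_or_gt k a with h | h
        · have h1 : (k : ℝ) ≤ a := by exact_mod_cast h
          nlinarith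
        · have h1 : (a : ℝ) + 1 ≤ k := by exact_mod_cast h
          nlinarith
      · rw [mul_eq_zero, sub_eq_zero, sub_eq_zero]
        constructor
        · rintro (h | h)
          · left; exact_mod_cast h
          · right; exact_mod_cast h
        · rintro (h | h)
          · left; exact_mod_cast h
          · right; exact_mod_cast h
    · have e : fQ I.M 0 (G.c h m (Vx.u k i j)) = (k : ℝ) * (I.M - k) := by
        simp [fQ, Geo.c, Vx.u, lin_vec]
        ring
      rw [e]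
      have h1 : (k : ℝ) ≤ I.M := by exact_mod_cast l3
      have h0 : (0 : ℝ) ≤ k := Nat.cast_nonneg k
      constructor
      · nlinarith
      · rw [mul_eq_zero, sub_eq_zero]
        constructor
        · rintro (h | h)
          · right; exact_mod_cast h
          · left; exact_mod_cast h.symm
        · rintro (h | h)
          · right; rw [h]
          · left; rw [h]; simp
  · simp [Vx.p] at hv'
  · simp [Vx.q] at hv'

end Pool.Agent.Helper62.G4
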